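import Pool.Agent.Run7.h221.Defs
import Pool.Agent.Run7.h221.Fin1

/-!
Sampling numbers of mixed Hölder-Nikol'skii classes in the uniform norm for `1 < p < 2`:
an upper bound which is smaller than the one of the Smolyak algorithms by a power of the
logarithm.
-/

open Run7.h221

/-- For `d ≥ 2`, `1 < p < 2`, `r > 1/p`, an integer `l > r` and any `η` with `1/p < η < 1` and
`η ≤ r`, the sampling numbers in the uniform norm of the mixed Hölder-Nikol'skii class are at most
a constant times `m ^ (-(r - 1/p)) * (log m) ^ ((d-1) * (1 + r - 1/p) - γ)` with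
`γ = (η - 1/p) * (2 - p) / (p * η) > 0`. -/
theorem Pool.Agent.Results.MP_bc5265_an.NetUpper.result (𝕜 : Type) [RCLike 𝕜] (d l : ℕ)
    (hd : 2 ≤ d) (p r η : ℝ) (hp1 : 1 < p) (hp2 : p < 2) (hη : 1 / p < η) (hη1 : η < 1)
    (hηr : η ≤ r) (hl : r < l) :
    ∃ C : ℝ, 0 < C ∧ ∀ m : ℕ, 2 ≤ m →
      samplingNumber m (HNClass 𝕜 d l r (ENNReal.ofReal p)) ⊤
        ≤ ENNReal.ofReal (C * (m : ℝ) ^ (-(r - 1 / p))
          * (Real.log m) ^ (((d : ℝ) - 1) * (1 + r - 1 / p)
            - (η - 1 / p) * (2 - p) / (p * η))) :=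
  upper 𝕜 d l hd p r η hp1 hp2 hη hη1 hηr hl
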